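import Pool.Agent.H16R.BO.Fin
import Pool.Agent.H16R.BO.GM
import Pool.Agent.H16R.BO.AN
import Pool.Agent.H16R.BO.RT
import Pool.Agent.H16R.BO.RL
import Pool.Agent.H16R.BO.BC
import Pool.Agent.H16R.BO.BR
import Pool.Agent.H16R.BO.PR
import Pool.Agent.H16R.BO.ST
import Pool.Agent.H16R.BO.CC
import Pool.Agent.H16R.BO.RG
import Pool.Agent.H16R.BO.LG
import Pool.Agent.H16R.BO.DP
import Pool.Agent.H16R.BO.MS

/-!
# No Borel solution to Post's problem is invariant with bounded non-uniformity

`W r X` is the set c.e. in `X` with index `r`: `n ∈ W r X` iff the program `r` halts on the input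
`(n, σ)` for some finite initial segment `σ` of `X`; `J X` is the jump of `X`; `le Y X` is Turing
reducibility `Y ≤_T X` (Mathlib's `TuringReducible` of the characteristic functions); `ch P` is the
characteristic function of `P`; `Red c X Y` says that the program `c` reduces `Y` to `X`: on the
inputs `(n, σ)`, `σ` a finite initial segment of `X`, it outputs the value `Y n` for at least one `σ`
and never another value (all in `Pool/Agent/H639/LU/Defs.lean`; part 6 says that `Y ≤_T X` holds iff
some program reduces `Y` to `X`). `Clo F` says that the set `F` of oracles is closed in the Cantor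
space, `Cof F` that it has members of cofinally many Turing degrees. Borel sets and functions are
the measurable ones for the product sigma-algebra of `ℕ → Bool`.

The theorems `BoundedNonuniformity`, `ClosedSets`, `REAOperators`, `BooleanCombinations` of this
folder treat c.e. operators and finite compositions and Boolean combinations of them, on closed sets
of oracles. Here `G` is any Borel map on oracles, and `F` any Borel set of oracles. Nothing is assumed
outside of `F`.

1. Local form: if `G X` is not computable in `X` for the `X` in `F` in a cone, then for each `k`, for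
   all `X` in a cone and all `V ≥_T X`: if a set c.e. in `V` provides, for every pair `(i, j)`, at
   most `k` programs such that for all `Y` in `F` with `Y ≡_T X` via `(i, j)` one of them reduces
   `G Y` to `V`, then `X' ≤_T V`.
2. For such `G` and `F` let `H` be any operation on oracles, Borel or not, with `X ≤_T H X`, such
   that for all `X ≡_T Y` in `F` via `(i, j)` in a cone one of at most `k` programs (given by `i` and
   `j` in an arbitrary way) reduces `G Y` to `H X`. Then `X' ≤_T H X` for all `X` in `F` in a cone.
3. Dichotomy: if `X ≤_T G X` and `G` is invariant with `k` candidates, both on the part of `F` in a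
   cone, then either a single program computes `G Y` from `Y` for all `Y` in a closed subset of `F`
   with members of cofinally many degrees, or `X' ≤_T G X` for all `X` in `F` in a cone.
4. If `F` consists of all oracles: either `G X ≡_T X` on a cone, or `X' ≤_T G X` on a cone.
5. So if `G` solves Post's problem on the part of `F` in a cone, then for every `k` there is a pair
   `(i, j)` for which no `k` programs suffice, even for the `X`, `Y` in `F`, in any cone.

For `k = 1` part 4 is a case of Steel's theorem on uniformly invariant functions. Part 7 says that the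
operators `X ↦ W_r^X` are Borel.

Proof. For a program `c` let player I play a sequence `A`, and player II a point `Y` of a closed set
which is decoded to `A` by `c`; player II wins if the digit `n` of `G Y` is `b` just when an odd digit
of `A` is 1. These games are determined (Borel determinacy, `Pool/Agent/R549/BD`). If player I wins
all of them, then by the recursion theorem the programs `c` can follow his strategies, which gives
a program for `G` on a smaller closed set. So player II wins one of them, also on the closed set of the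
points of his strategy with no 1 among the odd digits of `A`, and so on. The nested strategies
are used to code the number of the elements of a list of numbers which are in `X'`. The coding
machine is the one of `BoundedNonuniformity`.

Leaves of the proof were formalised by helper54 and helper88.
-/

set_option autoImplicit false

namespace Pool.Agent.Results.MP_57825d_lc.BorelOperators

open Nat.Partrec (Code)
open Encodable
open Pool.Agent.H639.LU Pool.Agent.H869R3.FN Pool.Agent.R616.DI Pool.Agent.H16R.BO

theorem rl : P_RL := RL AN RT PA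
theorem bc : P_BC := BC GM AN RT
theorem lb : P_LB := LB (CH (ST GM rl PR)) CC (LG RG) DP

theorem result :
    -- 1. the local form
    (∀ F : Set (ℕ → Bool), MeasurableSet F → Cof F → ∀ G : (ℕ → Bool) → ℕ → Bool, Measurable G →
      ∀ z₀ : ℕ → Bool, (∀ X ∈ F, le z₀ X → ¬ le (G X) X) →
      ∀ k : ℕ, ∃ z₁ : ℕ → Bool, ∀ X, le z₁ X → ∀ V : ℕ → Bool, le X V → ∀ e : Code,
        (∀ i j : Code, {l : Code | W e V (encode (i, j, l))}.encard ≤ k) →
        (∀ i j : Code, ∀ Y ∈ F, Red i X Y → Red j Y X →
          ∃ l : Code, W e V (encode (i, j, l)) ∧ Red l V (G Y)) →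
        le (ch (J X)) V) ∧
    -- 2. arbitrary operations which compute a Borel operation with `k` candidates
    (∀ F : Set (ℕ → Bool), MeasurableSet F → Cof F → ∀ G : (ℕ → Bool) → ℕ → Bool, Measurable G →
      ∀ z₀ : ℕ → Bool, (∀ X ∈ F, le z₀ X → ¬ le (G X) X) →
      ∀ (H : (ℕ → Bool) → ℕ → Bool) (k : ℕ) (u : Code → Code → Finset Code),
      (∀ i j, (u i j).card ≤ k) →
      (∀ X ∈ F, le z₀ X → le X (H X) ∧ ∀ i j : Code, ∀ Y ∈ F, Red i X Y → Red j Y X →
        ∃ l ∈ u i j, Red l (H X) (G Y)) →
      ∃ z, ∀ X ∈ F, le z X → le (ch (J X)) (H X)) ∧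
    -- 3. the dichotomy
    (∀ F : Set (ℕ → Bool), MeasurableSet F → Cof F → ∀ G : (ℕ → Bool) → ℕ → Bool, Measurable G →
      ∀ (z₀ : ℕ → Bool) (k : ℕ) (u : Code → Code → Finset Code), (∀ i j, (u i j).card ≤ k) →
      (∀ X ∈ F, le z₀ X → le X (G X) ∧ ∀ i j : Code, ∀ Y ∈ F, Red i X Y → Red j Y X →
        ∃ l ∈ u i j, Red l (G X) (G Y)) →
      (∃ F' ⊆ F, Clo F' ∧ Cof F' ∧ ∃ c : Code, ∀ Y ∈ F', Red c Y (G Y)) ∨
        ∃ z, ∀ X ∈ F, le z X → le (ch (J X)) (G X)) ∧
    -- 4. the dichotomy for all oracles
    (∀ G : (ℕ → Bool) → ℕ → Bool, Measurable G → ∀ (z₀ : ℕ → Bool) (k : ℕ)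
      (u : Code → Code → Finset Code), (∀ i j, (u i j).card ≤ k) →
      (∀ X, le z₀ X → le X (G X) ∧ ∀ (i j : Code) (Y : ℕ → Bool), Red i X Y → Red j Y X →
        ∃ l ∈ u i j, Red l (G X) (G Y)) →
      (∃ z, ∀ X, le z X → le (G X) X ∧ le X (G X)) ∨ ∃ z, ∀ X, le z X → le (ch (J X)) (G X)) ∧
    -- 5. solutions to Post's problem
    (∀ F : Set (ℕ → Bool), MeasurableSet F → Cof F → ∀ G : (ℕ → Bool) → ℕ → Bool, Measurable G →
      ∀ z₀ : ℕ → Bool,
      (∀ X ∈ F, le z₀ X → ¬ le (G X) X ∧ le X (G X) ∧ ¬ le (ch (J X)) (G X)) →
      ∀ k : ℕ, ∃ i j : Code, ∀ L : Finset Code, L.card ≤ k → ∀ z : ℕ → Bool,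
        ∃ X ∈ F, ∃ Y ∈ F, le z X ∧ Red i X Y ∧ Red j Y X ∧ ∀ l ∈ L, ¬ Red l (G X) (G Y)) ∧
    -- 6. reducibility and programs
    (∀ X Y : ℕ → Bool, le Y X ↔ ∃ c : Code, Red c X Y) ∧
    -- 7. c.e. operators are Borel
    ∀ r : Code, Measurable fun X : ℕ → Bool => ch (W r X) := by
  refine ⟨fun F hF hF' G hG z₀ h k => localB bc lb F hF hF' G hG z₀ h k,
    fun F hF hF' G hG z₀ h H k u hu hinv => aboveB bc lb F hF hF' G hG z₀ h H k u hu hinv,
    fun F hF hF' G hG z₀ k u hu hinv => dichB bc lb F hF hF' G hG z₀ k u hu hinv, ?_,
    fun F hF hF' G hG z₀ h k => solB bc lb F hF hF' G hG z₀ h k, le_iff, WM.1⟩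
  intro G hG z₀ k u hu hinv
  rcases coneB bc lb G hG z₀ k u hu hinv with ⟨z, hz⟩ | h
  · left
    obtain ⟨z', h1, h2⟩ := join2 z₀ z
    exact ⟨z', fun X hX => ⟨hz X (le_trans' h2 hX), (hinv X (le_trans' h1 hX)).1⟩⟩
  · exact Or.inr h

end Pool.Agent.Results.MP_57825d_lc.BorelOperators
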