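import Pool.Agent.H16R.FS.Fin
import Pool.Agent.H16R.BO.GM
import Pool.Agent.H16R.BO.AN
import Pool.Agent.H16R.BO.RT
import Pool.Agent.H16R.BO.BC

/-!
# Solutions to Post's problem whose index is chosen for each oracle

The notions `W r X`, `J X`, `ch`, `le`, `Red`, `Cof` are those of `BoundedNonuniformity` and
`BorelOperators` in this folder (`Pool/Agent/H639/LU/Defs.lean`): `W r X` is the set c.e. in `X` with
index `r`, `J X` is the jump, `le Y X` is Turing reducibility `Y ≤_T X`, `ch P` is the characteristic
function of `P`, `Red c X Y` says that the program `c` reduces `Y` to `X`, and `Cof F` says that `F`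
has members of cofinally many Turing degrees. `rea [r₁, …, rₙ] X` is the `n`-REA operator
`X ⊕ W_{r₁}^X ⊕ …` of `REAOperators`. The index of a program is its code `encode r`. Borel sets and
functions are the measurable ones for the product sigma-algebra of `ℕ → Bool`.

The question is about one c.e. operator `W_e`. The theorems of this folder on operations with `k`
candidates (`BoundedNonuniformity`, `ClosedSets`, `REAOperators`, `BorelOperators`, and others) are
about fixed c.e. operators or Borel operations. Here the index may be chosen for each oracle in an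
arbitrary way: `H` is any operation on oracles, not necessarily definable, such that `H X = W_r^X` for
some `r` which depends on `X`, for example `H X` may be `W_r^X` or `W_s^X`, the choice being made by
the axiom of choice. The only condition is that `r` is bounded by a Borel function of `X`.

1. Local form: let `R` be a finite set of programs such that no `W_r^X`, `r ∈ R`, is computable in
   `X`, for the `X` in `F` in a cone. Then for each `k`, for all `X` in a cone and all `V ≥_T X`: if a set
   c.e. in `V` provides, for every pair `(i, j)`, at most `k` programs such that for all `Y` in `F` with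
   `Y ≡_T X` via `(i, j)` one of them reduces one of the sets `W_r^Y`, `r ∈ R`, to `V`, then
   `X' ≤_T V`.
2. Let `F` be Borel with members of cofinally many degrees, `b` a Borel function from oracles to
   numbers, and `H` an operation such that, on the part of `F` in a cone, `X ≤_T H X`, and whenever
   `X ≡_T Y` via `(i, j)` one of at most `k` programs (given by `i` and `j` in an arbitrary way) reduces
   `H Y` to `H X`. If `H X`, unless it is computable in `X`, computes by a program of index at most
   `b X` a set `W_r^X`, with `r` of index at most `b X`, which is not computable in `X`, then for each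
   `X` in `F` in a cone `H X ≤_T X` or `X' ≤_T H X`.
3. In particular this holds if `H X = W_r^X` with `r` of index at most `b X`.
4. The same holds if `H X = rea L X` for a list `L` of index at most `b X`.
5. So if `H` solves Post's problem on the part of `F` in a cone, and `H X` computes some `W_r^X` as in
   2 (for example if `H X = W_r^X`, with `r` bounded by a Borel function), then for each `k` there is a
   pair `(i, j)` for which no `k` programs suffice, even for the `X`, `Y` in `F`, in any cone.
6. The non-uniformity of a solution `W_r` cannot be removed by the choice of representatives: if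
   `s X ≡_T X` is computed from `X` by a program of index at most `b X`, chosen in an arbitrary way,
   then the operation `X ↦ W_r^{s(X)}` has no `k` candidates, for each `k`.
7. The bound is necessary: there is an operation `H` which is constant on every Turing degree, with
   `H X` c.e. in `X`, and `X <_T H X`, and not `X' ≤_T H X`, for all `X`. (So the identity program
   reduces `H Y` to `H X` whenever `X ≡_T Y`.)

Proof. For a list of operators the coding of `BoundedNonuniformity` is done with trees and boundaries
in which the number of the level `q` belongs to the operator with the number `q` modulo `s`. The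
numbers enumerated by one of the operators determine the level up to `s` possibilities, because a
number which is enumerated once remains enumerated at all higher levels. So `k` programs for `H Y` give
at most `k s²` candidates for the level. A Borel function with values in the numbers is constant on
a closed set with members of cofinally many degrees (by Borel determinacy), and the operators which
are trivial on such sets can be removed one after the other.
-/

set_option autoImplicit false

namespace Pool.Agent.Results.MP_57825d_lc.ChosenIndices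

open Nat.Partrec (Code)
open Encodable
open Pool.Agent.H639.LU Pool.Agent.R616.DI Pool.Agent.H16R.BO Pool.Agent.H16R.FS

theorem bc : P_BC := BC GM AN RT

theorem result :
    -- 1. the local form
    (∀ F : Set (ℕ → Bool), MeasurableSet F → Cof F → ∀ R : Finset Code, R.Nonempty →
      ∀ z₀ : ℕ → Bool, (∀ X ∈ F, le z₀ X → ∀ r ∈ R, ¬ le (ch (W r X)) X) →
      ∀ k : ℕ, ∃ z₁ : ℕ → Bool, ∀ X, le z₁ X → ∀ V : ℕ → Bool, le X V → ∀ e : Code,
        (∀ i j : Code, {c : Code | W e V (encode (i, j, c))}.encard ≤ k) →
        (∀ i j : Code, ∀ Y ∈ F, Red i X Y → Red j Y X →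
          ∃ c : Code, W e V (encode (i, j, c)) ∧ ∃ r ∈ R, Red c V (ch (W r Y))) →
        le (ch (J X)) V) ∧
    -- 2. arbitrary operations which compute c.e. sets with a Borel bound for the indices
    (∀ F : Set (ℕ → Bool), MeasurableSet F → Cof F → ∀ b : (ℕ → Bool) → ℕ, Measurable b →
      ∀ (H : (ℕ → Bool) → ℕ → Bool) (z₀ : ℕ → Bool) (k : ℕ) (u : Code → Code → Finset Code),
      (∀ i j, (u i j).card ≤ k) →
      (∀ X ∈ F, le z₀ X → le X (H X) ∧
        (¬ le (H X) X → ∃ r d : Code, encode r ≤ b X ∧ encode d ≤ b X ∧
          ¬ le (ch (W r X)) X ∧ Red d (H X) (ch (W r X))) ∧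
        ∀ i j : Code, ∀ Y ∈ F, Red i X Y → Red j Y X → ∃ c ∈ u i j, Red c (H X) (H Y)) →
      ∃ z, ∀ X ∈ F, le z X → le (H X) X ∨ le (ch (J X)) (H X)) ∧
    -- 3. c.e. operators with chosen indices
    (∀ F : Set (ℕ → Bool), MeasurableSet F → Cof F → ∀ b : (ℕ → Bool) → ℕ, Measurable b →
      ∀ (H : (ℕ → Bool) → ℕ → Bool) (z₀ : ℕ → Bool) (k : ℕ) (u : Code → Code → Finset Code),
      (∀ i j, (u i j).card ≤ k) →
      (∀ X ∈ F, le z₀ X → le X (H X) ∧ (∃ r : Code, encode r ≤ b X ∧ H X = ch (W r X)) ∧
        ∀ i j : Code, ∀ Y ∈ F, Red i X Y → Red j Y X → ∃ c ∈ u i j, Red c (H X) (H Y)) →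
      ∃ z, ∀ X ∈ F, le z X → le (H X) X ∨ le (ch (J X)) (H X)) ∧
    -- 4. REA operators with chosen indices
    (∀ F : Set (ℕ → Bool), MeasurableSet F → Cof F → ∀ b : (ℕ → Bool) → ℕ, Measurable b →
      ∀ (H : (ℕ → Bool) → ℕ → Bool) (z₀ : ℕ → Bool) (k : ℕ) (u : Code → Code → Finset Code),
      (∀ i j, (u i j).card ≤ k) →
      (∀ X ∈ F, le z₀ X → (∃ L : List Code, encode L ≤ b X ∧ H X = rea L X) ∧
        ∀ i j : Code, ∀ Y ∈ F, Red i X Y → Red j Y X → ∃ c ∈ u i j, Red c (H X) (H Y)) →
      ∃ z, ∀ X ∈ F, le z X → le (H X) X ∨ le (ch (J X)) (H X)) ∧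
    -- 5. solutions to Post's problem with chosen indices
    (∀ F : Set (ℕ → Bool), MeasurableSet F → Cof F → ∀ b : (ℕ → Bool) → ℕ, Measurable b →
      ∀ (H : (ℕ → Bool) → ℕ → Bool) (z₀ : ℕ → Bool),
      (∀ X ∈ F, le z₀ X → le X (H X) ∧ ¬ le (ch (J X)) (H X) ∧
        ∃ r d : Code, encode r ≤ b X ∧ encode d ≤ b X ∧ ¬ le (ch (W r X)) X ∧
          Red d (H X) (ch (W r X))) →
      ∀ k : ℕ, ∃ i j : Code, ∀ L : Finset Code, L.card ≤ k → ∀ z : ℕ → Bool,
        ∃ X ∈ F, ∃ Y ∈ F, le z X ∧ Red i X Y ∧ Red j Y X ∧ ∀ c ∈ L, ¬ Red c (H X) (H Y)) ∧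
    -- 6. the choice of representatives
    (∀ (r : Code) (z₀ : ℕ → Bool),
      (∀ X, le z₀ X → ¬ le (ch (W r X)) X ∧ le X (ch (W r X)) ∧ ¬ le (ch (J X)) (ch (W r X))) →
      ∀ b : (ℕ → Bool) → ℕ, Measurable b → ∀ s : (ℕ → Bool) → ℕ → Bool,
      (∀ X, le z₀ X → le X (s X) ∧ ∃ c : Code, encode c ≤ b X ∧ Red c X (s X)) →
      ∀ k : ℕ, ∃ i j : Code, ∀ L : Finset Code, L.card ≤ k → ∀ z : ℕ → Bool,
        ∃ X Y : ℕ → Bool, le z X ∧ Red i X Y ∧ Red j Y X ∧
          ∀ c ∈ L, ¬ Red c (ch (W r (s X))) (ch (W r (s Y)))) ∧
    -- 7. the bound is necessary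
    (∃ H : (ℕ → Bool) → ℕ → Bool,
      (∀ X, (∃ r : Code, H X = ch (W r X)) ∧ le X (H X) ∧ ¬ le (H X) X ∧
        ¬ le (ch (J X)) (H X)) ∧
      ∀ X Y, le X Y → le Y X → H X = H Y) := by
  exact ⟨fun F hFm hF R hR z₀ h k => localR bc F hFm hF R hR z₀ h k,
    fun F hFm hF b hb H z₀ k u hu h => dichH bc F hFm hF b hb H z₀ k u hu h,
    fun F hFm hF b hb H z₀ k u hu h => dichW bc F hFm hF b hb H z₀ k u hu h,
    fun F hFm hF b hb H z₀ k u hu h => dichR bc F hFm hF b hb H z₀ k u hu h,
    fun F hFm hF b hb H z₀ h k => solH bc F hFm hF b hb H z₀ h k,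
    fun r z₀ hr b hb s hs k => repH bc r z₀ hr b hb s hs k, exists_const_op⟩

end Pool.Agent.Results.MP_57825d_lc.ChosenIndices
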