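import Pool.Agent.H16R.BO.Fin2
import Pool.Agent.Results.MP_57825d_lc.BorelOperators

/-!
# Solutions to Post's problem are non-uniform inside every single degree of a cone

The notions `W r X`, `J X`, `ch`, `le`, `Red` are those of the theorems `BoundedNonuniformity` and
`BorelOperators` of this folder; `IsCoding S` says that two fixed programs translate `0ⁿ 1 X` into
`S n X` and back, for all `n` and `X` (`Pool/Agent/H869R3/FN`).

The theorems on the non-uniformity of solutions to Post's problem in this folder say that for every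
`k` there is a pair `(i, j)` of programs such that no `k` programs transform `W_r^X` into `W_r^Y`
whenever `X ≡_T Y` via `(i, j)`: for each list of `k` programs there is a counterexample `X`, `Y` in
each cone. The degree of the counterexample depends on the list. So they do not exclude that inside
each single degree `k` programs for each pair `(i, j)` suffice, where the programs depend on the
degree. This is excluded here.

1. Let `W_r` solve Post's problem on a cone. Then there are an oracle `z` and, for each `k`, a pair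
   `(i, j)` of programs such that for EVERY degree `d` above `z` no `k` programs suffice for the pair
   `(i, j)` and the oracles of degree `d`.
2. The same holds for each Borel solution `G`.
3. Either there is a single pair `(i, j)` for which in every degree of a cone no finite number of
   programs suffices; or else, for every coding `S`, in every degree of a cone the number of programs
   which are necessary for the equivalence of `W_r^X` and `W_r^{S(n,X)}`, for the `X` of the degree,
   tends to infinity with `n` (uniformly in the degree). (The theorem `SinglePair` is the global form.)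

The proof uses the cone theorem for Borel sets (Martin), from Borel determinacy
(`Pool/Agent/R549/BD`) and a game with decoding (`Pool/Agent/H16R/BO/GM.lean`).

Leaves of the proof were formalised by helper54 and helper88.
-/

set_option autoImplicit false

namespace Pool.Agent.Results.MP_57825d_lc.EveryDegree

open Nat.Partrec (Code)
open Encodable
open Pool.Agent.H639.LU Pool.Agent.H869R3.FN Pool.Agent.R616.DI Pool.Agent.H16R.BO
open Pool.Agent.Results.MP_57825d_lc.BorelOperators (bc lb)

theorem result :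
    -- 1. c.e. operators
    (∀ (r : Code) (z₀ : ℕ → Bool),
      (∀ X, le z₀ X → ¬ le (ch (W r X)) X ∧ le X (ch (W r X)) ∧ ¬ le (ch (J X)) (ch (W r X))) →
      ∃ z : ℕ → Bool, ∀ k : ℕ, ∃ i j : Code, ∀ D, le z D → ∀ L : Finset Code, L.card ≤ k →
        ∃ X Y : ℕ → Bool, (le X D ∧ le D X) ∧ Red i X Y ∧ Red j Y X ∧
          ∀ l ∈ L, ¬ Red l (ch (W r X)) (ch (W r Y))) ∧
    -- 2. Borel operators
    (∀ G : (ℕ → Bool) → ℕ → Bool, Measurable G → ∀ z₀ : ℕ → Bool,
      (∀ X, le z₀ X → ¬ le (G X) X ∧ le X (G X) ∧ ¬ le (ch (J X)) (G X)) →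
      ∃ z : ℕ → Bool, ∀ k : ℕ, ∃ i j : Code, ∀ D, le z D → ∀ L : Finset Code, L.card ≤ k →
        ∃ X Y : ℕ → Bool, (le X D ∧ le D X) ∧ Red i X Y ∧ Red j Y X ∧
          ∀ l ∈ L, ¬ Red l (G X) (G Y)) ∧
    -- 3. one pair of programs, and codings
    (∀ (r : Code) (z₀ : ℕ → Bool),
      (∀ X, le z₀ X → ¬ le (ch (W r X)) X ∧ le X (ch (W r X)) ∧ ¬ le (ch (J X)) (ch (W r X))) →
      (∃ (i j : Code) (z : ℕ → Bool), ∀ D, le z D → ∀ L : Finset Code,
        ∃ X Y : ℕ → Bool, (le X D ∧ le D X) ∧ Red i X Y ∧ Red j Y X ∧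
          ∀ l ∈ L, ¬ Red l (ch (W r X)) (ch (W r Y))) ∨
      ∀ S : ℕ → (ℕ → Bool) → ℕ → Bool, IsCoding S → ∃ z : ℕ → Bool, ∀ k : ℕ,
        {n : ℕ | ∃ D, le z D ∧ ∃ M : Finset Code, M.card ≤ k ∧ ∀ X, le X D → le D X →
          (∃ l ∈ M, Red l (ch (W r X)) (ch (W r (S n X)))) ∧
          ∃ l ∈ M, Red l (ch (W r (S n X))) (ch (W r X))}.Finite) := by
  have key : ∀ G : (ℕ → Bool) → ℕ → Bool, Measurable G → ∀ z₀ : ℕ → Bool,
      (∀ X, le z₀ X → ¬ le (G X) X ∧ le X (G X) ∧ ¬ le (ch (J X)) (G X)) →
      ∃ z : ℕ → Bool, ∀ k : ℕ, ∃ i j : Code, ∀ D, le z D → ∀ L : Finset Code, L.card ≤ k →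
        ∃ X Y : ℕ → Bool, (le X D ∧ le D X) ∧ Red i X Y ∧ Red j Y X ∧
          ∀ l ∈ L, ¬ Red l (G X) (G Y) := by
    intro G hG z₀ h
    obtain ⟨z, hz⟩ := everyB bc lb MI (MC bc) G hG z₀ h
    refine ⟨z, fun k => ?_⟩
    obtain ⟨i, j, hij⟩ := hz k
    refine ⟨i, j, fun D hD L hL => ?_⟩
    obtain ⟨X, Y, h1, h2, h3⟩ := hij D hD L hL
    exact ⟨X, Y, ⟨h1, h2⟩, h3⟩
  refine ⟨fun r z₀ h => key _ (WM.1 r) z₀ h, key, fun r z₀ h => ?_⟩
  rcases singleB MI (MC bc) WM r z₀ h with ⟨i, j, z, hz⟩ | h'
  · left
    refine ⟨i, j, z, fun D hD L => ?_⟩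
    obtain ⟨X, Y, h1, h2, h3⟩ := hz D hD L
    exact ⟨X, Y, ⟨h1, h2⟩, h3⟩
  · right
    intro S hS
    obtain ⟨z, hz⟩ := h' S hS
    exact ⟨z, hz⟩

end Pool.Agent.Results.MP_57825d_lc.EveryDegree
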