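import Pool.Agent.H16R.TR.Bor
import Pool.Agent.H16R.TR.Exp
import Pool.Agent.H16R.FS.Fin
import Pool.Agent.Results.MP_57825d_lc.BorelOperators

/-!
# The growth of the non-uniformity of solutions to Post's problem

The notions `W r X`, `J X`, `ch`, `le`, `Red` are those of the theorems `BoundedNonuniformity` and
`BorelOperators` of this folder (`Pool/Agent/H639/LU/Defs.lean`): `W r X` is the set c.e. in `X` with
index `r`, `J X` is the jump, `le Y X` is Turing reducibility `Y ≤_T X`, `ch P` is the characteristic
function of `P`, `Red c X Y` says that the program `c` reduces `Y` to `X`. `flip X` is `X` with the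
first digit changed. `IsCoding S` says that two fixed programs translate `0ⁿ 1 X` into `S n X` and
back, for all `n` and `X` (`Pool/Agent/H869R3/FN`). Borel sets and functions are the measurable ones
for the product sigma-algebra of `ℕ → Bool`. For a pair `(i, j)` of programs, an operation `G` and a
set `D` of oracles (`Pool/Agent/H16R/TR/Gen.lean`):

* `It i j n X Y`: `Y` is obtained from `X` by `n` steps `X ≡_T Z` via `(i, j)`;
* `FlipSuff G D k`: `k` programs suffice for the change of the first digit, that is there is a list
  of at most `k` programs one of which reduces `G (flip X)` to `G X`, for all `X` in `D`;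
* `ItSuff i j G D k n`: `k` programs suffice for the `n`-th iterate of the pair, in both directions,
  that is there is a list of at most `k` programs which contains reductions of `G Y` to `G X` and of
  `G X` to `G Y` whenever `X` is in `D` and `It i j n X Y`.

By `FlipAndOnePair` the change of the first digit and one pair `(i, j)` generate Turing equivalence
(part 0), and no c.e. solution to Post's problem is uniformly invariant under these two reductions.
Here it is shown, for this pair, how the non-uniformity of a solution grows if it is finite for these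
two reductions: it is finite for every pair of programs, it tends to infinity along the iterates of
the one pair `(i, j)` and along each coding, and it is at most exponential in the length of a
description of the pair of programs.

0. `X ≡_T Y` if and only if `X` and `Y` are connected by changes of the first digit and steps of the
   pair `(i, j)`.
1. Let `G` be Borel and solve Post's problem on a cone. There is an oracle `z` such that for each `k`,
   for all but finitely many `n`, in NO degree `d` above `z` do `k` programs suffice for the change of
   the first digit, for the pair `(i, j)`, and for its `n`-th iterate (all for the oracles of degree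
   `d`). The same with `S(n,X)` in place of the `n`-th iterate, for every coding `S`. So in each degree
   above `z` in which finite lists for the first two reductions exist the number of programs which
   are necessary for the `n`-th iterate tends to infinity, uniformly in the degrees in which `k`
   programs suffice for the first two reductions.
2. The same on cones, for operations `H` which need not be definable: `H X` computes, by a program of
   index at most `b X`, some `W_r^X`, `r` of index at most `b X`, which is not computable in `X`, where
   `b` is Borel (see `ChosenIndices`; for example `H X = W_r^X` with `r` bounded by a Borel function).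
3. Conversely let `G` be any operation and `D` any set of oracles closed under Turing equivalence
   such that `k` programs suffice for the change of the first digit and for the pair `(i, j)`, on `D`.
   a. Then there is a finite list for every pair `(i', j')`, and if `(i', j')` is given by a binary word
      `w` via a partial computable function `φ`, the list has at most `c · (k + 1)^(28 |w|)` members,
      where `c` does not depend on `w`.
   b. For each computable `f` at most `c · (n + 1)^(28 (k + 1))` programs are necessary for the
      `f(n)`-th iterate.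
   c. For any sequence of pairs, computable or not, at most `c · (n + 1)^(28 (k + 1))` programs are
      necessary for the `n`-th pair and those oracles in `D` on whose even places there is the
      table of the sequence.
4. The theorem `SinglePair`, and its form in every degree (`EveryDegree`, part 3), for all Borel
   solutions `G`: either there is one pair for which in every degree of a cone no finite number of
   programs suffices, or for every coding `S` the number of programs necessary for `S(n,X)` tends to
   infinity with `n`, uniformly in the degrees of a cone.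

Proof. With `0` and `1` in front of `Z` the pair relates `1 Z` with `1 0 Z`, then `0 0 Z` with
`0 0 1 Z`, and `0 1 0ᵏ 1 X` with `0 1 0ᵏ 1 (X ⊕ Φ_k(X))`. So a bounded number of changes of the first
digit, of steps of the pair and of `n`-th iterates of the pair, for three numbers `n`, relates any two
oracles which are equivalent via a given pair of programs, and a word `w` can be written in front of
an oracle with `O(|w|)` steps. A finite list for a universal pair which reads this word gives 3. For 1
and 2 the `n`-th iterate gives a list for the coding `0ⁿ 1 X`. If boundedly many programs suffice for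
infinitely many `n` then a universal pair on the Borel set of the oracles which contain the set of
these `n` gives a bounded number of candidates for all pairs, on this set, which is impossible by
`BorelOperators` and `ChosenIndices`. The part on single degrees uses the cone theorem for Borel
sets.
-/

set_option autoImplicit false

namespace Pool.Agent.Results.MP_57825d_lc.GrowthOfNonuniformity

open Nat.Partrec (Code)
open Encodable
open Pool.Agent.H639.LU Pool.Agent.H869R3.FN Pool.Agent.Y579.PP Pool.Agent.R616.DI
open Pool.Agent.H16R.BO Pool.Agent.H16R.FS Pool.Agent.H16R.TR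
open Pool.Agent.Results.MP_57825d_lc.BorelOperators (bc lb)

theorem noFew_H (b : (ℕ → Bool) → ℕ) (hb : Measurable b) (H : (ℕ → Bool) → ℕ → Bool)
    (z₀ : ℕ → Bool) (h : ∀ X, le z₀ X → le X (H X) ∧ ¬ le (ch (J X)) (H X) ∧
      ∃ r d : Code, encode r ≤ b X ∧ encode d ≤ b X ∧ ¬ le (ch (W r X)) X ∧
        Red d (H X) (ch (W r X))) : NoFew H :=
  fun F hF hF' K => solH bc F hF hF' b hb H z₀ (fun X _ hX => h X hX) K

theorem result :
    (∃ i j : Code,
      -- `j` is a primitive recursive operation
      (∃ (δ : ℕ × List Bool → Bool) (u : ℕ → ℕ), Primrec δ ∧ Primrec u ∧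
        ∀ X Y : ℕ → Bool, Red j X Y ↔ ∀ n, Y n = δ (n, (List.range (u n)).map X)) ∧
      -- 0. the change of the first digit and the pair generate Turing equivalence
      (∀ X Y : ℕ → Bool, (le X Y ∧ le Y X) ↔
        Relation.EqvGen (fun X Y => Y = flip X ∨ (Red i X Y ∧ Red j Y X)) X Y) ∧
      -- 1. Borel solutions, inside every degree of a cone
      (∀ G : (ℕ → Bool) → ℕ → Bool, Measurable G → ∀ z₀ : ℕ → Bool,
        (∀ X, le z₀ X → ¬ le (G X) X ∧ le X (G X) ∧ ¬ le (ch (J X)) (G X)) →
        ∃ z : ℕ → Bool, ∀ k : ℕ,
          {n : ℕ | ∃ D, le z D ∧ FlipSuff G {X | le X D ∧ le D X} k ∧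
            ItSuff i j G {X | le X D ∧ le D X} k 1 ∧
            ItSuff i j G {X | le X D ∧ le D X} k n}.Finite ∧
          ∀ S : ℕ → (ℕ → Bool) → ℕ → Bool, IsCoding S → {n : ℕ | ∃ D, le z D ∧
            FlipSuff G {X | le X D ∧ le D X} k ∧ ItSuff i j G {X | le X D ∧ le D X} k 1 ∧
            ∃ M : Finset Code, M.card ≤ k ∧ ∀ X, le X D → le D X →
              (∃ l ∈ M, Red l (G X) (G (S n X))) ∧
              ∃ l ∈ M, Red l (G (S n X)) (G X)}.Finite) ∧
      -- 2. solutions with chosen indices, on cones
      (∀ b : (ℕ → Bool) → ℕ, Measurable b → ∀ (H : (ℕ → Bool) → ℕ → Bool) (z₀ : ℕ → Bool),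
        (∀ X, le z₀ X → le X (H X) ∧ ¬ le (ch (J X)) (H X) ∧
          ∃ r d : Code, encode r ≤ b X ∧ encode d ≤ b X ∧ ¬ le (ch (W r X)) X ∧
            Red d (H X) (ch (W r X))) →
        ∀ k : ℕ,
          {n : ℕ | ∃ z, FlipSuff H {X | le z X} k ∧ ItSuff i j H {X | le z X} k 1 ∧
            ItSuff i j H {X | le z X} k n}.Finite ∧
          ∀ S : ℕ → (ℕ → Bool) → ℕ → Bool, IsCoding S → {n : ℕ | ∃ z,
            FlipSuff H {X | le z X} k ∧ ItSuff i j H {X | le z X} k 1 ∧
            ∃ M : Finset Code, M.card ≤ k ∧ ∀ X, le z X →
              (∃ l ∈ M, Red l (H X) (H (S n X))) ∧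
              ∃ l ∈ M, Red l (H (S n X)) (H X)}.Finite) ∧
      -- 3. upper bounds, for arbitrary operations
      (∀ (G : (ℕ → Bool) → ℕ → Bool) (D : Set (ℕ → Bool)),
        (∀ X ∈ D, ∀ Y, le X Y → le Y X → Y ∈ D) → ∀ k : ℕ,
        FlipSuff G D k → ItSuff i j G D k 1 →
        -- a. pairs which are given by words
        (∀ φ : List Bool →. Code × Code, Partrec φ → ∃ c : ℕ, ∀ (w : List Bool) (i' j' : Code),
          (i', j') ∈ φ w → ∃ L : Finset Code, L.card ≤ c * ((k + 1) ^ 28) ^ w.length ∧
            ∀ X ∈ D, ∀ Y, Red i' X Y → Red j' Y X → ∃ l ∈ L, Red l (G X) (G Y)) ∧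
        -- b. the iterates
        (∀ f : ℕ → ℕ, Computable f → ∃ c : ℕ, ∀ n : ℕ,
          ItSuff i j G D (c * (n + 1) ^ (28 * (k + 1))) (f n)) ∧
        -- c. arbitrary sequences of pairs
        ∀ P : ℕ → Code × Code, ∃ c : ℕ, ∀ n : ℕ, ∃ L : Finset Code,
          L.card ≤ c * (n + 1) ^ (28 * (k + 1)) ∧ ∀ X ∈ D, ∀ Y,
            (∀ q, X (2 * q) = decide (q.unpair.2 = encode (P q.unpair.1))) →
            (∀ q, Y (2 * q) = decide (q.unpair.2 = encode (P q.unpair.1))) →
            Red (P n).1 X Y → Red (P n).2 Y X → ∃ l ∈ L, Red l (G X) (G Y))) ∧
    -- 4. one pair of programs, for Borel solutions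
    (∀ G : (ℕ → Bool) → ℕ → Bool, Measurable G → ∀ z₀ : ℕ → Bool,
      (∀ X, le z₀ X → ¬ le (G X) X ∧ le X (G X) ∧ ¬ le (ch (J X)) (G X)) →
      (∃ (i j : Code) (z : ℕ → Bool), ∀ D, le z D → ∀ L : Finset Code,
        ∃ X Y : ℕ → Bool, (le X D ∧ le D X) ∧ Red i X Y ∧ Red j Y X ∧
          ∀ l ∈ L, ¬ Red l (G X) (G Y)) ∨
      ∀ S : ℕ → (ℕ → Bool) → ℕ → Bool, IsCoding S → ∃ z : ℕ → Bool, ∀ k : ℕ,
        {n : ℕ | ∃ D, le z D ∧ ∃ M : Finset Code, M.card ≤ k ∧ ∀ X, le X D → le D X →
          (∃ l ∈ M, Red l (G X) (G (S n X))) ∧
          ∃ l ∈ M, Red l (G (S n X)) (G X)}.Finite) ∧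
    -- 5. the simplest coding
    IsCoding pf := by
  obtain ⟨i, j, hp, hj⟩ := exists_pair
  refine ⟨⟨i, j, hj, gen_iff hp, fun G hG z₀ h => ?_, fun b hb H z₀ h k => ?_, fun G D hD k h1 h2 =>
    ⟨fun φ hφ => expo hp hD h1 h2 φ hφ, fun f hf => poly hp hD h1 h2 f hf,
      fun P => fiber hp P hD h1 h2⟩⟩, fun G hG z₀ h => ?_, isCoding_pf⟩
  · obtain ⟨z, hz⟩ := single_all MI (MC bc) G hG (noFew_B bc lb G hG z₀ h) hp
    exact ⟨z, fun k => ⟨(hz k).2, (hz k).1⟩⟩
  · obtain ⟨h1, h2⟩ := cone_all H (noFew_H b hb H z₀ h) hp k
    exact ⟨h2, h1⟩
  · rcases singleG MI (MC bc) G hG (noFew_B bc lb G hG z₀ h) with ⟨i', j', z, hz⟩ | h'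
    · left
      refine ⟨i', j', z, fun D hD L => ?_⟩
      obtain ⟨X, Y, h1, h2, h3⟩ := hz D hD L
      exact ⟨X, Y, ⟨h1, h2⟩, h3⟩
    · right
      intro S hS
      obtain ⟨z, hz⟩ := h' S hS
      exact ⟨z, hz⟩

end Pool.Agent.Results.MP_57825d_lc.GrowthOfNonuniformity
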